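import Pool.Agent.W623.SecG.Loc2
import Pool.Agent.W623.SecE.Glb
import Pool.Agent.W623.SecC.Pts

/-!
# The local theorem over a henselian discrete valuation ring (helper766)
-/

open Polynomial

namespace Pool.Agent.TH766.PSec

universe u v w



lemma gauss {A k : Type u} [CommRing A] [IsDomain A] [IsDiscreteValuationRing A] [Field k]
    [Algebra A k] [IsFractionRing A k] (f : A[X]) (hlc : IsUnit f.leadingCoeff) (r : k[X])
    (hr : r ∣ f.map (algebraMap A k)) :
    ∃ r₀ : A[X], r₀.Monic ∧ r₀ ∣ f ∧ r = C r.leadingCoeff * r₀.map (algebraMap A k) := by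
  obtain ⟨u, hu⟩ := hlc
  have hmon : (C ((u⁻¹ : Aˣ) : A) * f).Monic := by
    apply monic_C_mul_of_mul_leadingCoeff_eq_one
    rw [← hu, Units.inv_mul]
  have hf0 : f ≠ 0 := by
    rintro rfl
    rw [leadingCoeff_zero] at hu
    exact u.ne_zero hu
  have hfk : f.map (algebraMap A k) ≠ 0 :=
    (Polynomial.map_ne_zero_iff (IsFractionRing.injective A k)).2 hf0
  have hr0 : r ≠ 0 := by
    rintro rfl
    exact hfk (zero_dvd_iff.1 hr)
  have hr' : r ∣ (C ((u⁻¹ : Aˣ) : A) * f).map (algebraMap A k) := by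
    rw [Polynomial.map_mul]
    exact Dvd.dvd.mul_left hr _
  obtain ⟨g, hg⟩ := IsIntegrallyClosed.eq_map_mul_C_of_dvd k hmon hr'
  have hlr : r.leadingCoeff ≠ 0 := leadingCoeff_ne_zero.2 hr0
  have hgm : g.Monic := by
    have h1 : (g.map (algebraMap A k)).leadingCoeff * r.leadingCoeff = 1 * r.leadingCoeff := by
      rw [one_mul]
      conv_rhs => rw [← hg]
      rw [leadingCoeff_mul, leadingCoeff_C]
    have h2 := mul_right_cancel₀ hlr h1
    have h3 : algebraMap A k g.leadingCoeff = 1 := by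
      rw [← h2, leadingCoeff_map_of_injective (IsFractionRing.injective A k)]
    exact IsFractionRing.injective A k (by rw [h3, map_one])
  refine ⟨g, hgm, ?_, by rw [mul_comm]; exact hg.symm⟩
  have h4 : g.map (algebraMap A k) ∣ f.map (algebraMap A k) := by
    refine Dvd.dvd.trans ⟨C r.leadingCoeff, hg.symm⟩ hr
  exact (map_dvd_map _ (IsFractionRing.injective A k) hgm).1 h4

/-- Hensel's lemma for the roots of `f` -/
lemma hensel_root' {A : Type u} [CommRing A] [IsDomain A] [HenselianLocalRing A] (f : A[X])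
    (hlc : IsUnit f.leadingCoeff)
    (hs : (f.map (IsLocalRing.residue A)).Separable) (b : A)
    (hb : f.eval b ∈ IsLocalRing.maximalIdeal A) :
    ∃ θ : A, f.eval θ = 0 ∧ θ - b ∈ IsLocalRing.maximalIdeal A := by
  obtain ⟨u, hu⟩ := hlc
  have hmon : (C ((u⁻¹ : Aˣ) : A) * f).Monic := by
    apply monic_C_mul_of_mul_leadingCoeff_eq_one
    rw [← hu, Units.inv_mul]
  have h1 : (C ((u⁻¹ : Aˣ) : A) * f).eval b ∈ IsLocalRing.maximalIdeal A := by
    rw [eval_mul, eval_C]
    exact Ideal.mul_mem_left _ _ hb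
  have hres : (f.map (IsLocalRing.residue A)).eval (IsLocalRing.residue A b) = 0 := by
    rw [eval_map, eval₂_at_apply, IsLocalRing.residue_eq_zero_iff]
    exact hb
  have h2 : IsUnit ((derivative (C ((u⁻¹ : Aˣ) : A) * f)).eval b) := by
    rw [derivative_C_mul, eval_mul, eval_C]
    refine (u⁻¹).isUnit.mul ?_
    by_contra hcon
    have h3 : (derivative f).eval b ∈ IsLocalRing.maximalIdeal A :=
      (IsLocalRing.mem_maximalIdeal _).2 hcon
    rw [← IsLocalRing.residue_eq_zero_iff, ← eval₂_at_apply, ← eval_map, ← derivative_map] at h3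
    obtain ⟨P, Q, hPQ⟩ := hs
    have h4 := congrArg (Polynomial.eval (IsLocalRing.residue A b)) hPQ
    rw [eval_add, eval_mul, eval_mul, hres, h3, mul_zero, mul_zero, add_zero, eval_one] at h4
    exact zero_ne_one h4
  obtain ⟨θ, hθ, hθb⟩ := HenselianLocalRing.is_henselian _ hmon b h1 h2
  refine ⟨θ, ?_, hθb⟩
  rw [IsRoot.def, eval_mul, eval_C] at hθ
  exact (Units.mul_right_eq_zero _).1 hθ

/-- Hensel's lemma for square roots -/
lemma hensel_sq {A : Type u} [CommRing A] [IsDomain A] [HenselianLocalRing A] (h2 : IsUnit (2 : A))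
    (u e : A) (hu : IsUnit u) (he : u - e ^ 2 ∈ IsLocalRing.maximalIdeal A) :
    ∃ ρ : A, ρ ^ 2 = u := by
  have hmon : (X ^ 2 - C u : A[X]).Monic := monic_X_pow_sub_C u (by norm_num)
  have heu : IsUnit e := by
    by_contra hcon
    have h3 : e ∈ IsLocalRing.maximalIdeal A := (IsLocalRing.mem_maximalIdeal _).2 hcon
    have h4 : u ∈ IsLocalRing.maximalIdeal A := by
      have h5 : u = (u - e ^ 2) + e * e := by ring
      rw [h5]
      exact add_mem he (Ideal.mul_mem_left _ _ h3)
    exact (IsLocalRing.mem_maximalIdeal _).1 h4 hu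
  obtain ⟨ρ, hρ, -⟩ := HenselianLocalRing.is_henselian (X ^ 2 - C u : A[X]) hmon e (by
    rw [eval_sub, eval_pow, eval_X, eval_C, ← neg_mem_iff, neg_sub]
    exact he) (by
    rw [derivative_sub, derivative_X_pow, derivative_C, sub_zero, eval_mul, eval_C, eval_pow,
      eval_X, Nat.cast_ofNat]
    exact h2.mul (heu.pow _))
  refine ⟨ρ, ?_⟩
  rw [IsRoot.def, eval_sub, eval_pow, eval_X, eval_C] at hρ
  exact sub_eq_zero.1 hρ

/-- values of polynomials at congruent elements -/
lemma eval_sub_mem {A : Type u} [CommRing A] [IsLocalRing A] (r : A[X]) (b θ : A)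
    (h : θ - b ∈ IsLocalRing.maximalIdeal A) :
    r.eval θ - r.eval b ∈ IsLocalRing.maximalIdeal A :=
  Ideal.mem_of_dvd _ (sub_dvd_eval_sub θ b r) h


lemma sep_frac {A k : Type u} [CommRing A] [IsDomain A]
    [IsDiscreteValuationRing A] [Field k] [Algebra A k] [IsFractionRing A k] [CharZero k] (f : A[X])
    (hlc : IsUnit f.leadingCoeff)
    (hs : (f.map (IsLocalRing.residue A)).Separable) : (f.map (algebraMap A k)).Separable := by
  rw [PerfectField.separable_iff_squarefree]
  intro g hg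
  have hinj : Function.Injective (algebraMap A k) := IsFractionRing.injective A k
  have hf0 : f ≠ 0 := by
    rintro rfl
    rw [leadingCoeff_zero] at hlc
    exact not_isUnit_zero hlc
  have hfk : f.map (algebraMap A k) ≠ 0 := (Polynomial.map_ne_zero_iff hinj).2 hf0
  have hg1 : g ∣ f.map (algebraMap A k) := (Dvd.intro g rfl).trans hg
  have hg0 : g ≠ 0 := by
    rintro rfl
    exact hfk (zero_dvd_iff.1 hg1)
  obtain ⟨g₀, hm, -, hgg⟩ := gauss f hlc g hg1
  have hl0 : g.leadingCoeff ≠ 0 := leadingCoeff_ne_zero.2 hg0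
  have h1 : (g₀ * g₀).map (algebraMap A k) ∣ f.map (algebraMap A k) := by
    refine Dvd.dvd.trans ⟨C (g.leadingCoeff * g.leadingCoeff), ?_⟩ hg
    rw [Polynomial.map_mul, C_mul]
    conv_lhs => rw [hgg]
    ring
  have h2 : g₀ * g₀ ∣ f := (map_dvd_map _ hinj (hm.mul hm)).1 h1
  have h3 := hs.squarefree (g₀.map (IsLocalRing.residue A)) (by
    rw [← Polynomial.map_mul]
    exact Polynomial.map_dvd _ h2)
  have h4 : (g₀.map (IsLocalRing.residue A)).natDegree = 0 := natDegree_eq_zero_of_isUnit h3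
  rw [hm.natDegree_map] at h4
  rw [hgg, eq_C_of_natDegree_eq_zero h4, Polynomial.map_C, ← C_mul]
  refine (isUnit_iff_ne_zero.2 ?_).map C
  refine mul_ne_zero hl0 ?_
  rw [Ne, map_eq_zero_iff _ hinj]
  intro h5
  have h6 := hm
  rw [eq_C_of_natDegree_eq_zero h4, h5, C_0] at h6
  exact h6.ne_zero rfl

/-- the core theorem -/
theorem core {A k : Type u} {F : Type v} {Ω : Type w} [CommRing A] [IsDomain A]
    [IsDiscreteValuationRing A] [HenselianLocalRing A] [Finite (IsLocalRing.ResidueField A)]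
    [Field k] [Algebra A k] [IsFractionRing A k] [CharZero k] (h2 : IsUnit (2 : A))
    (f : A[X]) (hlc : IsUnit f.leadingCoeff) (hev : Even f.natDegree) (h4 : 4 ≤ f.natDegree)
    (hs : (f.map (IsLocalRing.residue A)).Separable) (a : k) (t ϖ : A) (m : ℤ) (ht : IsUnit t)
    (hϖ : Irreducible ϖ) (hm : Odd m) (ha : a = algebraMap A k t * algebraMap A k ϖ ^ m)
    [Field F] [Field Ω] [Algebra k F] [Algebra F Ω] [Algebra k Ω] [IsScalarTower k F Ω]
    [IsAlgClosed Ω] [Algebra.IsAlgebraic F Ω] (x y : F) (hx : Transcendental k x)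
    (hxy : algebraMap k F a * y ^ 2 = aeval x (f.map (algebraMap A k)))
    (U : Set (ValuationSubring F)) (hU : ∀ O ∈ U, ∀ c : k, algebraMap k F c ∈ O)
    (G : Pool.Agent.W620.SC.GSection k F Ω U) :
    ∃ b : A, f.eval b = 0 ∧ ∀ r : k[X], r ∣ f.map (algebraMap A k) → Even r.natDegree →
      r.eval (algebraMap A k b) ≠ 0 →
      ∃ z : Pool.Agent.W620.SC.unramified F Ω U, (∀ σ, G.toHom σ z = z) ∧
        (z : Ω) ^ 2 = algebraMap F Ω (algebraMap k F (r.eval (algebraMap A k b)) * aeval x r) := by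
  have hinj : Function.Injective (algebraMap A k) := IsFractionRing.injective A k
  have hϖ0 : algebraMap A k ϖ ≠ 0 := fun h => hϖ.ne_zero (hinj (by rw [h, map_zero]))
  have ha0 : a ≠ 0 := by
    rw [ha]
    exact mul_ne_zero (fun h => ht.ne_zero (hinj (by rw [h, map_zero]))) (zpow_ne_zero _ hϖ0)
  obtain ⟨b₀, hb₀, hloc⟩ := Pool.Agent.W623.SecG.secloc2 A k F Ω h2 f hlc hev h4 hs ϖ hϖ a t m ht ha
    U hU G x y hxy hx
  obtain ⟨b, hb, hbb⟩ := hensel_root' f hlc hs b₀ (hb₀ hm)
  refine ⟨b, hb, ?_⟩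
  intro r hr hre hrb
  obtain ⟨r₀, hr₀m, hr₀f, hrr⟩ := gauss f hlc r hr
  set l := r.leadingCoeff with hl
  have hr0 : r ≠ 0 := by
    rintro h
    rw [h, eval_zero] at hrb
    exact hrb rfl
  have hl0 : l ≠ 0 := leadingCoeff_ne_zero.2 hr0
  have hr₀deg : r₀.natDegree = r.natDegree := by
    rw [hrr, natDegree_C_mul hl0, natDegree_map_eq_of_injective hinj]
  obtain ⟨c, β, hc, hβ, hcβ⟩ := Pool.Agent.W623.SecE.secglob k F Ω (f.map (algebraMap A k))
    (sep_frac f hlc hs) (by rw [natDegree_map_eq_of_injective hinj]; exact hev) a ha0 U hU G x y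
    hxy hx (r₀.map (algebraMap A k)) (Polynomial.map_dvd _ hr₀f)
    (by rw [natDegree_map_eq_of_injective hinj, hr₀deg]; exact hre)
  have hre₀ : r.eval (algebraMap A k b) = l * algebraMap A k (r₀.eval b) := by
    rw [hrr, eval_mul, eval_C, eval_map, eval₂_at_apply]
  have hrb0 : r₀.eval b ≠ 0 := by
    intro h
    apply hrb
    rw [hre₀, h, map_zero, mul_zero]
  have hunit₁ : r₀.eval b ∉ IsLocalRing.maximalIdeal A := by
    intro hmem
    obtain ⟨q, hq⟩ := hr₀f
    have hq0 : q.eval b = 0 := by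
      have h1 := hb
      rw [hq, eval_mul] at h1
      exact (mul_eq_zero.1 h1).resolve_left hrb0
    have hs' := hs
    rw [hq, Polynomial.map_mul] at hs'
    obtain ⟨P, Q, hPQ⟩ := hs'.isCoprime
    have h3 := congrArg (Polynomial.eval (IsLocalRing.residue A b)) hPQ
    have e1 : (r₀.map (IsLocalRing.residue A)).eval (IsLocalRing.residue A b) = 0 := by
      rw [eval_map, eval₂_at_apply, IsLocalRing.residue_eq_zero_iff]
      exact hmem
    have e2 : (q.map (IsLocalRing.residue A)).eval (IsLocalRing.residue A b) = 0 := by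
      rw [eval_map, eval₂_at_apply, hq0, map_zero]
    rw [eval_add, eval_mul, eval_mul, e1, e2, mul_zero, mul_zero, add_zero, eval_one] at h3
    exact zero_ne_one h3
  have hcong := eval_sub_mem r₀ b₀ b hbb
  have hunit : r₀.eval b₀ ∉ IsLocalRing.maximalIdeal A := by
    intro h
    apply hunit₁
    have h1 := add_mem hcong h
    rwa [sub_add_cancel] at h1
  obtain ⟨u, e, j, hu, hcu, hue⟩ := (hloc r₀ (by rw [hr₀m.leadingCoeff]; exact isUnit_one)
    (by rw [hr₀deg]; exact hre) hr₀f c β hc hβ hcβ).2.1 hm hunit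
  have hub : IsUnit (r₀.eval b) := by
    by_contra h
    exact hunit₁ ((IsLocalRing.mem_maximalIdeal _).2 h)
  obtain ⟨ρ, hρ⟩ := hensel_sq h2 (u * r₀.eval b) e (hu.mul hub) (by
    have h1 : u * r₀.eval b - e ^ 2 = u * (r₀.eval b - r₀.eval b₀) + (u * r₀.eval b₀ - e ^ 2) := by
      ring
    rw [h1]
    exact add_mem (Ideal.mul_mem_left _ _ hcong) hue)
  have hkU : ∀ d : k, algebraMap k Ω d = ((algebraMap F (Pool.Agent.W620.SC.unramified F Ω U)
      (algebraMap k F d) : Pool.Agent.W620.SC.unramified F Ω U) : Ω) := fun d =>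
    IsScalarTower.algebraMap_apply k F Ω d
  refine ⟨algebraMap F _ (algebraMap k F (l * algebraMap A k ρ * algebraMap A k ϖ ^ j)) * β, ?_, ?_⟩
  · intro σ
    rw [map_mul, hβ, AlgEquiv.commutes]
  · have h5 : algebraMap k Ω c * (β : Ω) ^ 2 =
        algebraMap F Ω (aeval x (r₀.map (algebraMap A k))) := hcβ
    have h6 : aeval x r = algebraMap k F l * aeval x (r₀.map (algebraMap A k)) := by
      conv_lhs => rw [hrr]
      rw [map_mul, aeval_C]
    have h7 : (l * algebraMap A k ρ * algebraMap A k ϖ ^ j) ^ 2 =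
        l ^ 2 * algebraMap A k (r₀.eval b) * c := by
      have h8 : algebraMap A k ρ ^ 2 = algebraMap A k u * algebraMap A k (r₀.eval b) := by
        rw [← map_pow, hρ, map_mul]
      have h9 : (algebraMap A k ϖ ^ j) ^ 2 = algebraMap A k ϖ ^ (2 * j) := by
        rw [← zpow_natCast, ← zpow_mul, mul_comm]
        norm_num
      rw [mul_pow, mul_pow, h8, h9, hcu]
      ring
    rw [h6, hre₀, MulMemClass.coe_mul, mul_pow]
    have h10 : ((algebraMap F (Pool.Agent.W620.SC.unramified F Ω U)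
        (algebraMap k F (l * algebraMap A k ρ * algebraMap A k ϖ ^ j)) :
        Pool.Agent.W620.SC.unramified F Ω U) : Ω) ^ 2 =
        algebraMap k Ω (l ^ 2 * algebraMap A k (r₀.eval b)) * algebraMap k Ω c := by
      rw [← hkU, ← map_pow, h7, map_mul]
    rw [h10, mul_assoc, h5, IsScalarTower.algebraMap_apply k F Ω, ← map_mul]
    congr 1
    rw [map_mul, map_mul, map_pow]
    ring

end Pool.Agent.TH766.PSec
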